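import Mathlib

/-!
# `p`-adic approximation of a zero of a form

Job 477 (helper716), part of the proof of S17823.
-/

namespace Pool.Agent.Y61.PV

open MvPolynomial

theorem aeval_smul_of_isHomogeneous {ι : Type*} {K : Type*} [CommRing K] {d : ℕ}
    (f : MvPolynomial ι ℤ) (hf : f.IsHomogeneous d) (c : K) (x : ι → K) :
    MvPolynomial.aeval (fun i => c * x i) f = c ^ d * MvPolynomial.aeval x f := by
  rw [MvPolynomial.aeval_def, MvPolynomial.aeval_def, MvPolynomial.eval₂_eq,
    MvPolynomial.eval₂_eq, Finset.mul_sum]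
  refine Finset.sum_congr rfl fun m hm => ?_
  have hdeg : ∑ i ∈ m.support, m i = d := by
    have := hf (MvPolynomial.mem_support_iff.mp hm)
    rw [Finsupp.weight_apply] at this
    simpa [Finsupp.sum] using this
  simp only [mul_pow, Finset.prod_mul_distrib, Finset.prod_pow_eq_pow_sum, hdeg]
  ring

theorem exists_approx_of_padic {ι : Type*} [Fintype ι] {p : ℕ} [Fact p.Prime] {d : ℕ}
    (f : MvPolynomial ι ℤ) (hf : f.IsHomogeneous d)
    (h : ∃ x : ι → ℚ_[p], x ≠ 0 ∧ MvPolynomial.aeval x f = 0) (E : ℕ) :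
    ∃ (r : ι) (z : ι → ℤ), z r = 1 ∧ (p : ℤ) ^ E ∣ MvPolynomial.eval z f := by
  classical
  obtain ⟨x, hx0, hxf⟩ := h
  have hne : Nonempty ι := by
    by_contra hcon
    rw [not_nonempty_iff] at hcon
    exact hx0 (Subsingleton.elim _ _)
  obtain ⟨r, -, hr⟩ := Finset.exists_max_image Finset.univ (fun i => ‖x i‖) ⟨Classical.arbitrary ι, Finset.mem_univ _⟩
  have hxr : x r ≠ 0 := by
    intro h0
    apply hx0
    funext i
    have := hr i (Finset.mem_univ i)
    rw [h0, norm_zero] at this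
    simpa using norm_le_zero_iff.mp this
  have hle : ∀ i, ‖(x r)⁻¹ * x i‖ ≤ 1 := by
    intro i
    rw [norm_mul, norm_inv, inv_mul_le_iff₀ (norm_pos_iff.mpr hxr), mul_one]
    exact hr i (Finset.mem_univ i)
  set y : ι → ℤ_[p] := fun i => ⟨(x r)⁻¹ * x i, hle i⟩ with hy
  have hyr : y r = 1 := by
    apply Subtype.ext
    simp [hy, hxr]
  have hyf : MvPolynomial.aeval y f = 0 := by
    have h1 : (algebraMap ℤ_[p] ℚ_[p]) (MvPolynomial.aeval y f) = 0 := by
      have h2 : (algebraMap ℤ_[p] ℚ_[p]) (MvPolynomial.aeval y f)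
          = MvPolynomial.aeval (fun i => (x r)⁻¹ * x i) f := by
        rw [MvPolynomial.aeval_def, MvPolynomial.aeval_def, MvPolynomial.hom_eval₂]
        congr 1
      rw [h2, aeval_smul_of_isHomogeneous f hf, hxf, mul_zero]
    have hinj : Function.Injective (algebraMap ℤ_[p] ℚ_[p]) := FaithfulSMul.algebraMap_injective _ _
    exact (map_eq_zero_iff _ hinj).mp h1
  -- approximate
  set z : ι → ℤ := fun i => if i = r then 1 else (PadicInt.appr (y i) E : ℤ) with hz
  have hker : ∀ i, PadicInt.toZModPow E (y i) = ((z i : ℤ) : ZMod (p ^ E)) := by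
    intro i
    by_cases hi : i = r
    · subst hi
      rw [hyr, hz]; simp
    · have : PadicInt.toZModPow E (y i) = ((PadicInt.appr (y i) E : ℕ) : ZMod (p ^ E)) := rfl
      rw [this, hz]
      simp [hi]
  refine ⟨r, z, by simp [hz], ?_⟩
  have h3 : ((MvPolynomial.eval z f : ℤ) : ZMod (p ^ E)) = 0 := by
    have h4 : PadicInt.toZModPow E (MvPolynomial.aeval y f) = ((MvPolynomial.eval z f : ℤ) : ZMod (p ^ E)) := by
      rw [MvPolynomial.aeval_def, MvPolynomial.hom_eval₂]
      have h5 : ((MvPolynomial.eval z f : ℤ) : ZMod (p ^ E))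
          = (Int.castRingHom (ZMod (p ^ E))) (MvPolynomial.eval₂ (RingHom.id ℤ) z f) := rfl
      rw [h5, MvPolynomial.hom_eval₂]
      have h6 : ((PadicInt.toZModPow E).comp (algebraMap ℤ ℤ_[p]))
          = (Int.castRingHom (ZMod (p ^ E))).comp (RingHom.id ℤ) := RingHom.ext_int _ _
      rw [h6]
      congr 1
      funext i
      exact hker i
    rw [← h4, hyf, map_zero]
  rw [ZMod.intCast_zmod_eq_zero_iff_dvd] at h3
  exact_mod_cast h3

end Pool.Agent.Y61.PV
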