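import Mathlib

/-!
# Counting lattice points in a box where a monotone function is small

Job 478 (helper716), part of the proof of S17823.
-/

namespace Pool.Agent.Y61.PV

/-- The integers congruent to `c` modulo `M` in the real interval `[a, b]`. -/
noncomputable def progInt (M : ℕ) (c : ℤ) (a b : ℝ) : Finset ℤ :=
  (Finset.Icc ⌈(a - c) / M⌉ ⌊(b - c) / M⌋).image (fun k => c + M * k)

theorem mem_progInt {M : ℕ} (hM : 1 ≤ M) (c : ℤ) (a b : ℝ) (n : ℤ) :
    n ∈ progInt M c a b ↔ (M : ℤ) ∣ n - c ∧ a ≤ n ∧ (n : ℝ) ≤ b := by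
  have hM0 : (0 : ℝ) < M := by exact_mod_cast hM
  unfold progInt
  rw [Finset.mem_image]
  constructor
  · rintro ⟨k, hk, rfl⟩
    rw [Finset.mem_Icc, Int.ceil_le, Int.le_floor, div_le_iff₀ hM0, le_div_iff₀ hM0] at hk
    refine ⟨⟨k, by ring⟩, ?_, ?_⟩
    · push_cast; linarith [hk.1]
    · push_cast; linarith [hk.2]
  · rintro ⟨⟨k, hk⟩, h1, h2⟩
    have hn : n = c + M * k := by linarith
    refine ⟨k, ?_, hn.symm⟩
    rw [Finset.mem_Icc, Int.ceil_le, Int.le_floor, div_le_iff₀ hM0, le_div_iff₀ hM0]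
    subst hn
    push_cast at h1 h2
    constructor <;> linarith

theorem card_progInt_eq {M : ℕ} (hM : 1 ≤ M) (c : ℤ) (a b : ℝ) :
    (progInt M c a b).card = (⌊(b - c) / M⌋ + 1 - ⌈(a - c) / M⌉).toNat := by
  unfold progInt
  rw [Finset.card_image_of_injective, Int.card_Icc]
  intro k l hkl
  have hM0 : M ≠ 0 := by omega
  simpa [hM0] using hkl

theorem card_progInt_le {M : ℕ} (hM : 1 ≤ M) (c : ℤ) (a b : ℝ) (hab : a ≤ b) :
    ((progInt M c a b).card : ℝ) ≤ (b - a) / M + 1 := by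
  have hM0 : (0 : ℝ) < M := by exact_mod_cast hM
  rw [card_progInt_eq hM]
  have h1 : (⌊(b - c) / M⌋ : ℝ) ≤ (b - c) / M := Int.floor_le _
  have h2 : (a - c) / M ≤ (⌈(a - c) / M⌉ : ℝ) := Int.le_ceil _
  have h3 : (b - c) / M - (a - c) / M = (b - a) / M := by ring
  rcases le_total 0 (⌊(b - c) / M⌋ + 1 - ⌈(a - c) / M⌉) with h | h
  · have h4 : (((⌊(b - c) / M⌋ + 1 - ⌈(a - c) / M⌉).toNat : ℕ) : ℝ)
        = ((⌊(b - c) / M⌋ + 1 - ⌈(a - c) / M⌉ : ℤ) : ℝ) := by
      exact_mod_cast congrArg (fun z : ℤ => (z : ℝ)) (Int.toNat_of_nonneg h)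
    rw [h4]
    push_cast
    linarith
  · rw [Int.toNat_of_nonpos h]
    have : 0 ≤ (b - a) / M := div_nonneg (by linarith) hM0.le
    push_cast
    linarith

theorem le_card_progInt {M : ℕ} (hM : 1 ≤ M) (c : ℤ) (a b : ℝ) :
    (b - a) / M - 1 ≤ ((progInt M c a b).card : ℝ) := by
  rw [card_progInt_eq hM]
  have h1 : (b - c) / M - 1 < (⌊(b - c) / M⌋ : ℝ) := Int.sub_one_lt_floor _
  have h2 : (⌈(a - c) / M⌉ : ℝ) < (a - c) / M + 1 := Int.ceil_lt_add_one _
  have h3 : (b - c) / M - (a - c) / M = (b - a) / M := by ring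
  have h4 : ((⌊(b - c) / M⌋ + 1 - ⌈(a - c) / M⌉ : ℤ) : ℝ)
      ≤ (((⌊(b - c) / M⌋ + 1 - ⌈(a - c) / M⌉).toNat : ℕ) : ℝ) := by
    exact_mod_cast Int.self_le_toNat _
  push_cast at h4
  linarith

/-- One dimensional fibre: upper bound. -/
theorem fibre_upper {M : ℕ} (hM : 1 ≤ M) (c : ℤ) (lo hi Δ c₁ : ℝ) (hΔ : 0 ≤ Δ) (hc₁ : 0 < c₁)
    (g : ℝ → ℝ)
    (hs : ∀ s t : ℝ, lo ≤ s → s ≤ t → t ≤ hi → c₁ * (t - s) ≤ g t - g s) (S : Finset ℤ)
    (hS : ∀ n ∈ S, (M : ℤ) ∣ n - c ∧ (lo ≤ n ∧ (n : ℝ) ≤ hi) ∧ |g n| ≤ Δ) :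
    (S.card : ℝ) ≤ 2 * Δ / (c₁ * M) + 1 := by
  have hM0 : (0 : ℝ) < M := by exact_mod_cast hM
  rcases S.eq_empty_or_nonempty with rfl | hne
  · simp only [Finset.card_empty, Nat.cast_zero]; positivity
  · set m := S.min' hne with hm
    have hmS : m ∈ S := S.min'_mem hne
    obtain ⟨-, ⟨hm1, hm2⟩, hm3⟩ := hS m hmS
    have hsub : S ⊆ progInt M c m (m + 2 * Δ / c₁) := by
      intro n hn
      obtain ⟨h1, ⟨h2, h3⟩, h4⟩ := hS n hn
      rw [mem_progInt hM]
      have hmn : m ≤ n := S.min'_le n hn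
      have hmn' : (m : ℝ) ≤ n := by exact_mod_cast hmn
      refine ⟨h1, hmn', ?_⟩
      have h5 := hs m n hm1 hmn' h3
      have h6 : g n - g m ≤ 2 * Δ := by
        have := abs_le.mp h4
        have := abs_le.mp hm3
        linarith
      have h7 : (n : ℝ) - m ≤ 2 * Δ / c₁ := by
        rw [le_div_iff₀ hc₁]; linarith
      linarith
    calc (S.card : ℝ) ≤ (progInt M c m (m + 2 * Δ / c₁)).card := by
          exact_mod_cast Finset.card_le_card hsub
      _ ≤ ((m + 2 * Δ / c₁) - m) / M + 1 := card_progInt_le hM _ _ _ (by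
          have : 0 ≤ 2 * Δ / c₁ := by positivity
          linarith)
      _ = _ := by
          rw [add_sub_cancel_left, div_div]

/-- One dimensional fibre: lower bound. -/
theorem fibre_lower {M : ℕ} (hM : 1 ≤ M) (c : ℤ) (lo hi Δ c₁ c₂ : ℝ) (hΔ : 0 ≤ Δ) (hc₁ : 0 < c₁)
    (hlh : lo < hi) (g : ℝ → ℝ)
    (hs : ∀ s t : ℝ, lo ≤ s → s ≤ t → t ≤ hi → c₁ * (t - s) ≤ g t - g s ∧ g t - g s ≤ c₂ * (t - s))
    (hlo : g lo ≤ -Δ) (hhi : Δ ≤ g hi) (S : Finset ℤ)
    (hS : ∀ n : ℤ, (M : ℤ) ∣ n - c ∧ (lo ≤ n ∧ (n : ℝ) ≤ hi) ∧ |g n| ≤ Δ → n ∈ S) :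
    2 * Δ / (c₂ * M) - 1 ≤ (S.card : ℝ) := by
  have hM0 : (0 : ℝ) < M := by exact_mod_cast hM
  have hc₂ : 0 < c₂ := by
    have h1 := hs lo hi le_rfl hlh.le le_rfl
    have h2 : 0 < c₁ * (hi - lo) := mul_pos hc₁ (by linarith)
    have h3 : 0 < c₂ * (hi - lo) := by linarith
    exact (pos_iff_pos_of_mul_pos h3).mpr (by linarith)
  have hcont : ContinuousOn g (Set.Icc lo hi) := by
    have hlip : LipschitzOnWith (Real.toNNReal c₂) g (Set.Icc lo hi) := by
      apply LipschitzOnWith.of_dist_le_mul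
      intro s hs' t ht'
      rw [Real.dist_eq, Real.dist_eq, Real.coe_toNNReal _ hc₂.le]
      rcases le_total s t with h | h
      · have h1 := hs s t hs'.1 h ht'.2
        rw [abs_sub_comm, abs_sub_comm s t, abs_of_nonneg, abs_of_nonneg (by linarith)]
        · exact h1.2
        · have : 0 ≤ c₁ * (t - s) := mul_nonneg hc₁.le (by linarith)
          linarith [h1.1]
      · have h1 := hs t s ht'.1 h hs'.2
        rw [abs_of_nonneg, abs_of_nonneg (by linarith)]
        · exact h1.2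
        · have : 0 ≤ c₁ * (s - t) := mul_nonneg hc₁.le (by linarith)
          linarith [h1.1]
    exact hlip.continuousOn
  have hivt := intermediate_value_Icc hlh.le hcont
  obtain ⟨a, ha, hga⟩ := hivt (show -Δ ∈ Set.Icc (g lo) (g hi) from ⟨hlo, by linarith⟩)
  obtain ⟨b, hb, hgb⟩ := hivt (show Δ ∈ Set.Icc (g lo) (g hi) from ⟨by linarith, hhi⟩)
  have hab : a ≤ b := by
    by_contra hcon
    push Not at hcon
    have h1 := (hs b a hb.1 hcon.le ha.2).1
    have h2 : 0 < c₁ * (a - b) := mul_pos hc₁ (by linarith)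
    linarith
  have hsub : progInt M c a b ⊆ S := by
    intro n hn
    rw [mem_progInt hM] at hn
    obtain ⟨h1, h2, h3⟩ := hn
    apply hS
    refine ⟨h1, ⟨by linarith [ha.1], by linarith [hb.2]⟩, ?_⟩
    have h4 := (hs a n ha.1 h2 (by linarith [hb.2])).1
    have h5 := (hs n b (by linarith [ha.1]) h3 hb.2).1
    have h6 : 0 ≤ c₁ * ((n : ℝ) - a) := mul_nonneg hc₁.le (by linarith)
    have h7 : 0 ≤ c₁ * (b - (n : ℝ)) := mul_nonneg hc₁.le (by linarith)
    rw [abs_le]
    constructor <;> linarith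
  have h8 : 2 * Δ / c₂ ≤ b - a := by
    rw [div_le_iff₀ hc₂]
    have := (hs a b ha.1 hab hb.2).2
    linarith
  calc 2 * Δ / (c₂ * M) - 1 = (2 * Δ / c₂) / M - 1 := by rw [div_div]
    _ ≤ (b - a) / M - 1 := by
        have := div_le_div_of_nonneg_right h8 hM0.le
        linarith
    _ ≤ (progInt M c a b).card := le_card_progInt hM _ _ _
    _ ≤ S.card := by exact_mod_cast Finset.card_le_card hsub

theorem box_count_real {ι : Type*} [Fintype ι] [DecidableEq ι] (i₀ : ι) (F : (ι → ℝ) → ℝ)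
    (lo hi : ι → ℝ) (M : ℕ) (hM : 1 ≤ M) (hlohi : ∀ i, lo i ≤ hi i) (c : ι → ℤ) (Δ c₁ c₂ : ℝ) (hΔ : 0 ≤ Δ)
    (hc₁ : 0 < c₁)
    (hslope : ∀ x : ι → ℝ, (∀ i, lo i ≤ x i ∧ x i ≤ hi i) →
      ∀ s t : ℝ, lo i₀ ≤ s → s ≤ t → t ≤ hi i₀ →
      c₁ * (t - s) ≤ F (Function.update x i₀ t) - F (Function.update x i₀ s) ∧
      F (Function.update x i₀ t) - F (Function.update x i₀ s) ≤ c₂ * (t - s))
    (hend : ∀ x : ι → ℝ, (∀ i, lo i ≤ x i ∧ x i ≤ hi i) →
      F (Function.update x i₀ (lo i₀)) ≤ -Δ ∧ Δ ≤ F (Function.update x i₀ (hi i₀)))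
    (X : Finset (ι → ℤ))
    (hX : ∀ x, x ∈ X ↔ (∀ i, (M : ℤ) ∣ x i - c i) ∧ (∀ i, lo i ≤ x i ∧ (x i : ℝ) ≤ hi i) ∧
      |F (fun i => (x i : ℝ))| ≤ Δ) :
    (X.card : ℝ) ≤ (∏ i ∈ Finset.univ.erase i₀, ((hi i - lo i) / M + 1)) * (2 * Δ / (c₁ * M) + 1) ∧
    ((∀ i, (M : ℝ) ≤ hi i - lo i) →
      (∏ i ∈ Finset.univ.erase i₀, ((hi i - lo i) / M - 1)) * (2 * Δ / (c₂ * M) - 1) ≤ X.card) := by
  have hM0 : (0 : ℝ) < M := by exact_mod_cast hM
  set A : ι → Finset ℤ := fun i => progInt M (c i) (lo i) (hi i) with hA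
  set P : Finset (ι → ℤ) := Fintype.piFinset (fun i => if i = i₀ then {0} else A i) with hP
  have hPcard : P.card = ∏ i ∈ Finset.univ.erase i₀, (A i).card := by
    rw [hP, Fintype.card_piFinset, ← Finset.mul_prod_erase Finset.univ _ (Finset.mem_univ i₀)]
    rw [if_pos rfl, Finset.card_singleton, one_mul]
    refine Finset.prod_congr rfl fun i hi' => ?_
    rw [if_neg (Finset.ne_of_mem_erase hi')]
  have hmaps : ∀ x ∈ X, Function.update x i₀ 0 ∈ P := by
    intro x hx
    obtain ⟨h1, h2, -⟩ := (hX x).mp hx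
    rw [hP, Fintype.mem_piFinset]
    intro i
    by_cases hi' : i = i₀
    · subst hi'; simp
    · rw [if_neg hi', Function.update_of_ne hi', hA, mem_progInt hM]
      exact ⟨h1 i, h2 i⟩
  have hcardsum : (X.card : ℝ) = ∑ y ∈ P, ((X.filter (fun x => Function.update x i₀ 0 = y)).card : ℝ) := by
    exact_mod_cast Finset.card_eq_sum_card_fiberwise hmaps
  -- the box point attached to `y`
  have hbox : ∀ y ∈ P, ∀ i, lo i ≤ Function.update (fun i => (y i : ℝ)) i₀ (lo i₀) i ∧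
      Function.update (fun i => (y i : ℝ)) i₀ (lo i₀) i ≤ hi i := by
    intro y hy i
    rw [hP, Fintype.mem_piFinset] at hy
    by_cases hi' : i = i₀
    · subst hi'
      rw [Function.update_self]
      exact ⟨le_rfl, hlohi _⟩
    · rw [Function.update_of_ne hi']
      have := hy i
      rw [if_neg hi', hA, mem_progInt hM] at this
      exact this.2
  have hfib : ∀ y ∈ P, ((X.filter (fun x => Function.update x i₀ 0 = y)).card)
      = ((X.filter (fun x => Function.update x i₀ 0 = y)).image (fun x => x i₀)).card := by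
    intro y hy
    rw [Finset.card_image_of_injOn]
    intro x hx x' hx' hxx
    have h1 := (Finset.mem_filter.mp hx).2
    have h2 := (Finset.mem_filter.mp hx').2
    funext i
    by_cases hi' : i = i₀
    · subst hi'; exact hxx
    · have h3 := congrFun (h1.trans h2.symm) i
      rwa [Function.update_of_ne hi', Function.update_of_ne hi'] at h3
  have hfibmem : ∀ y ∈ P, ∀ n : ℤ,
      n ∈ ((X.filter (fun x => Function.update x i₀ 0 = y)).image (fun x => x i₀)) ↔
      (M : ℤ) ∣ n - c i₀ ∧ (lo i₀ ≤ n ∧ (n : ℝ) ≤ hi i₀) ∧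
      |F (Function.update (Function.update (fun i => (y i : ℝ)) i₀ (lo i₀)) i₀ (n : ℝ))| ≤ Δ := by
    intro y hy n
    have hyP := hy
    rw [hP, Fintype.mem_piFinset] at hy
    have hy0 : y i₀ = 0 := by
      have := hy i₀
      rw [if_pos rfl] at this
      simpa using this
    rw [Function.update_idem, Finset.mem_image]
    have hcast : ∀ m : ℤ, (fun i => ((Function.update y i₀ m i : ℤ) : ℝ))
        = Function.update (fun i => (y i : ℝ)) i₀ (m : ℝ) := by
      intro m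
      funext i
      by_cases hi' : i = i₀
      · subst hi'; simp
      · simp [Function.update_of_ne hi']
    constructor
    · rintro ⟨x, hx, rfl⟩
      obtain ⟨hxX, hxy⟩ := Finset.mem_filter.mp hx
      obtain ⟨h1, h2, h3⟩ := (hX x).mp hxX
      have hxe : x = Function.update y i₀ (x i₀) := by
        rw [← hxy, Function.update_idem, Function.update_eq_self]
      refine ⟨h1 i₀, h2 i₀, ?_⟩
      rw [← hcast, ← hxe]
      exact h3
    · rintro ⟨h1, h2, h3⟩
      refine ⟨Function.update y i₀ n, ?_, by simp⟩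
      rw [Finset.mem_filter]
      refine ⟨?_, ?_⟩
      · rw [hX]
        refine ⟨?_, ?_, ?_⟩
        · intro i
          by_cases hi' : i = i₀
          · subst hi'; simpa using h1
          · rw [Function.update_of_ne hi']
            have := hy i
            rw [if_neg hi', hA, mem_progInt hM] at this
            exact this.1
        · intro i
          by_cases hi' : i = i₀
          · subst hi'; simpa using h2
          · rw [Function.update_of_ne hi']
            have := hy i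
            rw [if_neg hi', hA, mem_progInt hM] at this
            exact this.2
        · rw [hcast]; exact h3
      · rw [Function.update_idem, ← hy0, Function.update_eq_self]
  constructor
  · have hup : ∀ y ∈ P, ((X.filter (fun x => Function.update x i₀ 0 = y)).card : ℝ)
        ≤ 2 * Δ / (c₁ * M) + 1 := by
      intro y hy
      rw [hfib y hy]
      refine fibre_upper hM (c i₀) (lo i₀) (hi i₀) Δ c₁ hΔ hc₁
        (fun t => F (Function.update (Function.update (fun i => (y i : ℝ)) i₀ (lo i₀)) i₀ t))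
        (fun s t h1 h2 h3 => (hslope _ (hbox y hy) s t h1 h2 h3).1) _ ?_
      intro n hn
      exact (hfibmem y hy n).mp hn
    have hU : 0 ≤ 2 * Δ / (c₁ * M) + 1 := by positivity
    have hPle : (P.card : ℝ) ≤ ∏ i ∈ Finset.univ.erase i₀, ((hi i - lo i) / M + 1) := by
      rw [hPcard]
      push_cast
      exact Finset.prod_le_prod (fun i _ => Nat.cast_nonneg _)
        (fun i _ => card_progInt_le hM _ _ _ (hlohi i))
    calc (X.card : ℝ) = ∑ y ∈ P, ((X.filter (fun x => Function.update x i₀ 0 = y)).card : ℝ) := hcardsum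
      _ ≤ ∑ _y ∈ P, (2 * Δ / (c₁ * M) + 1) := Finset.sum_le_sum hup
      _ = P.card * (2 * Δ / (c₁ * M) + 1) := by rw [Finset.sum_const, nsmul_eq_mul]
      _ ≤ _ := mul_le_mul_of_nonneg_right hPle hU
  · intro hbig
    rcases le_total (2 * Δ / (c₂ * M) - 1) 0 with hneg | hpos
    · have h1 : 0 ≤ ∏ i ∈ Finset.univ.erase i₀, ((hi i - lo i) / M - 1) := by
        refine Finset.prod_nonneg fun i _ => ?_
        rw [sub_nonneg, one_le_div₀ hM0]
        exact hbig i
      calc _ ≤ (0 : ℝ) := mul_nonpos_of_nonneg_of_nonpos h1 hneg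
        _ ≤ _ := Nat.cast_nonneg _
    · have hlt : lo i₀ < hi i₀ := by
        have := hbig i₀
        linarith
      have hdown : ∀ y ∈ P, 2 * Δ / (c₂ * M) - 1 ≤
          ((X.filter (fun x => Function.update x i₀ 0 = y)).card : ℝ) := by
        intro y hy
        rw [hfib y hy]
        have he := hend _ (hbox y hy)
        refine fibre_lower hM (c i₀) (lo i₀) (hi i₀) Δ c₁ c₂ hΔ hc₁ hlt
          (fun t => F (Function.update (Function.update (fun i => (y i : ℝ)) i₀ (lo i₀)) i₀ t))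
          (fun s t h1 h2 h3 => hslope _ (hbox y hy) s t h1 h2 h3) he.1 he.2 _ ?_
        intro n hn
        exact (hfibmem y hy n).mpr hn
      have hPge : ∏ i ∈ Finset.univ.erase i₀, ((hi i - lo i) / M - 1) ≤ (P.card : ℝ) := by
        rw [hPcard]
        push_cast
        refine Finset.prod_le_prod (fun i _ => ?_) (fun i _ => le_card_progInt hM _ _ _)
        rw [sub_nonneg, one_le_div₀ hM0]
        exact hbig i
      calc (∏ i ∈ Finset.univ.erase i₀, ((hi i - lo i) / M - 1)) * (2 * Δ / (c₂ * M) - 1)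
          ≤ P.card * (2 * Δ / (c₂ * M) - 1) := mul_le_mul_of_nonneg_right hPge hpos
        _ = ∑ _y ∈ P, (2 * Δ / (c₂ * M) - 1) := by rw [Finset.sum_const, nsmul_eq_mul]
        _ ≤ ∑ y ∈ P, ((X.filter (fun x => Function.update x i₀ 0 = y)).card : ℝ) :=
            Finset.sum_le_sum hdown
        _ = X.card := hcardsum.symm

end Pool.Agent.Y61.PV
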