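import Mathlib

/-!
# Value and Lipschitz bounds for forms, slopes from partial derivatives

Job 479 (helper716), part of the proof of S17823.
-/

namespace Pool.Agent.Y61.PV

open MvPolynomial

/-- Two numbers of size `B ^ k`, close to each other like values of a product of `k` factors. -/
def GoodPair (B δ : ℝ) (k : ℕ) (a b : ℝ) : Prop :=
  |a| ≤ B ^ k ∧ |b| ≤ B ^ k ∧ |a - b| ≤ k * B ^ (k - 1) * δ

theorem GoodPair.one {B δ : ℝ} : GoodPair B δ 0 1 1 := by
  simp [GoodPair]

theorem GoodPair.mul {B δ : ℝ} (hB : 0 ≤ B) (hδ : 0 ≤ δ) {k l : ℕ} {a b a' b' : ℝ}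
    (h : GoodPair B δ k a b) (h' : GoodPair B δ l a' b') : GoodPair B δ (k + l) (a * a') (b * b') := by
  obtain ⟨h1, h2, h3⟩ := h
  obtain ⟨h1', h2', h3'⟩ := h'
  have hBk : 0 ≤ B ^ k := pow_nonneg hB _
  have hBl : 0 ≤ B ^ l := pow_nonneg hB _
  refine ⟨?_, ?_, ?_⟩
  · rw [abs_mul, pow_add]
    exact mul_le_mul h1 h1' (abs_nonneg _) hBk
  · rw [abs_mul, pow_add]
    exact mul_le_mul h2 h2' (abs_nonneg _) hBk
  · have e1 : a * a' - b * b' = a * (a' - b') + (a - b) * b' := by ring
    have e2 : |a * (a' - b')| ≤ l * B ^ (k + l - 1) * δ := by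
      rw [abs_mul]
      rcases Nat.eq_zero_or_pos l with hl | hl
      · subst hl
        have : |a' - b'| ≤ 0 := by simpa using h3'
        have h0 : |a' - b'| = 0 := le_antisymm this (abs_nonneg _)
        rw [h0]; simp
      · have : k + l - 1 = k + (l - 1) := by omega
        rw [this, pow_add]
        calc |a| * |a' - b'| ≤ B ^ k * (l * B ^ (l - 1) * δ) :=
              mul_le_mul h1 h3' (abs_nonneg _) hBk
          _ = _ := by ring
    have e3 : |(a - b) * b'| ≤ k * B ^ (k + l - 1) * δ := by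
      rw [abs_mul]
      rcases Nat.eq_zero_or_pos k with hk | hk
      · subst hk
        have : |a - b| ≤ 0 := by simpa using h3
        have h0 : |a - b| = 0 := le_antisymm this (abs_nonneg _)
        rw [h0]; simp
      · have : k + l - 1 = (k - 1) + l := by omega
        rw [this, pow_add]
        calc |a - b| * |b'| ≤ (k * B ^ (k - 1) * δ) * B ^ l :=
              mul_le_mul h3 h2' (abs_nonneg _) (by positivity)
          _ = _ := by ring
    rw [e1]
    calc |a * (a' - b') + (a - b) * b'| ≤ |a * (a' - b')| + |(a - b) * b'| := abs_add_le _ _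
      _ ≤ l * B ^ (k + l - 1) * δ + k * B ^ (k + l - 1) * δ := add_le_add e2 e3
      _ = _ := by push_cast; ring

theorem GoodPair.pow {B δ : ℝ} (hB : 0 ≤ B) (hδ : 0 ≤ δ) {a b : ℝ}
    (ha : |a| ≤ B) (hb : |b| ≤ B) (hab : |a - b| ≤ δ) (m : ℕ) :
    GoodPair B δ m (a ^ m) (b ^ m) := by
  induction m with
  | zero => simpa using GoodPair.one (B := B) (δ := δ)
  | succ m ih =>
    have h1 : GoodPair B δ 1 a b := ⟨by simpa using ha, by simpa using hb, by simpa using hab⟩
    have := ih.mul hB hδ h1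
    simpa [pow_succ] using this

theorem GoodPair.prod {ι : Type*} {B δ : ℝ} (hB : 0 ≤ B) (hδ : 0 ≤ δ) (s : Finset ι)
    (x y : ι → ℝ) (m : ι → ℕ)
    (hx : ∀ i, |x i| ≤ B) (hy : ∀ i, |y i| ≤ B) (hxy : ∀ i, |x i - y i| ≤ δ) :
    GoodPair B δ (∑ i ∈ s, m i) (∏ i ∈ s, x i ^ m i) (∏ i ∈ s, y i ^ m i) := by
  classical
  induction s using Finset.induction_on with
  | empty => simpa using GoodPair.one (B := B) (δ := δ)
  | insert a s ha ih =>
    rw [Finset.sum_insert ha, Finset.prod_insert ha, Finset.prod_insert ha]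
    exact (GoodPair.pow hB hδ (hx a) (hy a) (hxy a) (m a)).mul hB hδ ih

theorem form_bounds {ι : Type*} [Fintype ι] (d : ℕ) : ∃ C : ℝ, 1 ≤ C ∧ ∀ (f : MvPolynomial ι ℤ) (R : ℝ),
    f.IsHomogeneous d → (∀ m, |((f.coeff m : ℤ) : ℝ)| ≤ R) → ∀ (B : ℝ), 0 ≤ B →
    (∀ x : ι → ℝ, (∀ i, |x i| ≤ B) → |MvPolynomial.aeval x f| ≤ C * R * B ^ d) ∧
    (∀ (x y : ι → ℝ) (δ : ℝ), 0 ≤ δ → (∀ i, |x i| ≤ B) → (∀ i, |y i| ≤ B) → (∀ i, |x i - y i| ≤ δ) →
      |MvPolynomial.aeval x f - MvPolynomial.aeval y f| ≤ C * R * B ^ (d - 1) * δ) := by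
  classical
  set T : Finset (ι →₀ ℕ) := (Finset.univ : Finset ι).finsuppAntidiag d with hT
  refine ⟨T.card * d + T.card + 1, ?_, ?_⟩
  · have : (0 : ℝ) ≤ T.card * d + T.card := by positivity
    linarith
  intro f R hf hR B hB
  have hR0 : 0 ≤ R := le_trans (abs_nonneg _) (hR 0)
  have hdeg : ∀ m ∈ f.support, ∑ i, m i = d := by
    intro m hm
    have := hf (MvPolynomial.mem_support_iff.mp hm)
    rw [Finsupp.weight_apply] at this
    rw [← this, Finsupp.sum_fintype]
    · simp
    · simp
  have hsub : f.support ⊆ T := by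
    intro m hm
    rw [hT, Finset.mem_finsuppAntidiag]
    exact ⟨hdeg m hm, Finset.subset_univ _⟩
  have hcard : (f.support.card : ℝ) ≤ T.card := by exact_mod_cast Finset.card_le_card hsub
  have hev : ∀ x : ι → ℝ, MvPolynomial.aeval x f
      = ∑ m ∈ f.support, ((f.coeff m : ℤ) : ℝ) * ∏ i, x i ^ m i := by
    intro x
    rw [MvPolynomial.aeval_def, MvPolynomial.eval₂_eq']
    rfl
  constructor
  · intro x hx
    rw [hev]
    calc |∑ m ∈ f.support, ((f.coeff m : ℤ) : ℝ) * ∏ i, x i ^ m i|
        ≤ ∑ m ∈ f.support, |((f.coeff m : ℤ) : ℝ) * ∏ i, x i ^ m i| :=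
          Finset.abs_sum_le_sum_abs _ _
      _ ≤ ∑ m ∈ f.support, R * B ^ d := by
          refine Finset.sum_le_sum fun m hm => ?_
          rw [abs_mul]
          have h1 := (GoodPair.prod hB hB Finset.univ x x (fun i => m i) hx hx
            (fun i => by simpa using hB)).1
          rw [hdeg m hm] at h1
          exact mul_le_mul (hR m) h1 (abs_nonneg _) hR0
      _ = f.support.card * (R * B ^ d) := by simp
      _ ≤ (T.card * d + T.card + 1) * R * B ^ d := by
          have h2 : 0 ≤ R * B ^ d := by positivity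
          have h3 : (f.support.card : ℝ) ≤ T.card * d + T.card + 1 := by
            have : (0 : ℝ) ≤ T.card * d := by positivity
            linarith
          rw [mul_assoc]
          exact mul_le_mul_of_nonneg_right h3 h2
  · intro x y δ hδ hx hy hxy
    rw [hev, hev, ← Finset.sum_sub_distrib]
    calc |∑ m ∈ f.support, (((f.coeff m : ℤ) : ℝ) * ∏ i, x i ^ m i
            - ((f.coeff m : ℤ) : ℝ) * ∏ i, y i ^ m i)|
        ≤ ∑ m ∈ f.support, |((f.coeff m : ℤ) : ℝ) * ∏ i, x i ^ m i
            - ((f.coeff m : ℤ) : ℝ) * ∏ i, y i ^ m i| :=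
          Finset.abs_sum_le_sum_abs _ _
      _ ≤ ∑ m ∈ f.support, R * (d * B ^ (d - 1) * δ) := by
          refine Finset.sum_le_sum fun m hm => ?_
          rw [← mul_sub, abs_mul]
          have h1 := (GoodPair.prod hB hδ Finset.univ x y (fun i => m i) hx hy hxy).2.2
          rw [hdeg m hm] at h1
          exact mul_le_mul (hR m) h1 (abs_nonneg _) hR0
      _ = f.support.card * (R * (d * B ^ (d - 1) * δ)) := by simp
      _ ≤ T.card * (R * (d * B ^ (d - 1) * δ)) :=
          mul_le_mul_of_nonneg_right hcard (by positivity)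
      _ ≤ (T.card * d + T.card + 1) * R * B ^ (d - 1) * δ := by
          have h2 : 0 ≤ R * B ^ (d - 1) * δ := by positivity
          have h3 : (T.card : ℝ) * d ≤ T.card * d + T.card + 1 := by
            have : (0 : ℝ) ≤ T.card := by positivity
            linarith
          calc (T.card : ℝ) * (R * (d * B ^ (d - 1) * δ))
              = (T.card * d) * (R * B ^ (d - 1) * δ) := by ring
            _ ≤ (T.card * d + T.card + 1) * (R * B ^ (d - 1) * δ) :=
                mul_le_mul_of_nonneg_right h3 h2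
            _ = _ := by ring

theorem hasDerivAt_aeval_update {ι : Type*} [Fintype ι] [DecidableEq ι] (f : MvPolynomial ι ℤ)
    (i₀ : ι) (x : ι → ℝ) (τ : ℝ) :
    HasDerivAt (fun t => MvPolynomial.aeval (Function.update x i₀ t) f)
      (MvPolynomial.aeval (Function.update x i₀ τ) (MvPolynomial.pderiv i₀ f)) τ := by
  induction f using MvPolynomial.induction_on with
  | C a =>
    simp only [MvPolynomial.algHom_C, MvPolynomial.pderiv_C, map_zero]
    exact hasDerivAt_const _ _
  | add p q hp hq =>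
    simp only [map_add]
    exact hp.add hq
  | mul_X p j hp =>
    have hX : HasDerivAt (fun t => Function.update x i₀ t j)
        (MvPolynomial.aeval (Function.update x i₀ τ) (MvPolynomial.pderiv i₀ (X j : MvPolynomial ι ℤ))) τ := by
      by_cases hj : j = i₀
      · subst hj
        simpa using hasDerivAt_id' τ
      · simpa [Function.update_of_ne hj, MvPolynomial.pderiv_X_of_ne hj] using hasDerivAt_const τ (x j)
    have := hp.mul hX
    simp only [MvPolynomial.pderiv_mul, map_add, map_mul, MvPolynomial.aeval_X]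
    exact this

theorem slope_of_pderiv {ι : Type*} [Fintype ι] [DecidableEq ι] (f : MvPolynomial ι ℤ) (i₀ : ι)
    (x : ι → ℝ) (s t c₁ c₂ : ℝ) (hst : s ≤ t)
    (h : ∀ τ, s ≤ τ → τ ≤ t →
      c₁ ≤ MvPolynomial.aeval (Function.update x i₀ τ) (MvPolynomial.pderiv i₀ f) ∧
      MvPolynomial.aeval (Function.update x i₀ τ) (MvPolynomial.pderiv i₀ f) ≤ c₂) :
    c₁ * (t - s) ≤ MvPolynomial.aeval (Function.update x i₀ t) f -
        MvPolynomial.aeval (Function.update x i₀ s) f ∧
      MvPolynomial.aeval (Function.update x i₀ t) f -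
        MvPolynomial.aeval (Function.update x i₀ s) f ≤ c₂ * (t - s) := by
  have hd : ∀ τ, HasDerivAt (fun t => MvPolynomial.aeval (Function.update x i₀ t) f)
      (MvPolynomial.aeval (Function.update x i₀ τ) (MvPolynomial.pderiv i₀ f)) τ :=
    fun τ => hasDerivAt_aeval_update f i₀ x τ
  have hcont : ContinuousOn (fun t => MvPolynomial.aeval (Function.update x i₀ t) f)
      (Set.Icc s t) := fun τ _ => (hd τ).continuousAt.continuousWithinAt
  have hdiff : DifferentiableOn ℝ (fun t => MvPolynomial.aeval (Function.update x i₀ t) f)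
      (interior (Set.Icc s t)) := fun τ _ => (hd τ).differentiableAt.differentiableWithinAt
  have hs : s ∈ Set.Icc s t := ⟨le_refl _, hst⟩
  have ht : t ∈ Set.Icc s t := ⟨hst, le_refl _⟩
  constructor
  · refine (convex_Icc s t).mul_sub_le_image_sub_of_le_deriv hcont hdiff ?_ s hs t ht hst
    intro τ hτ
    rw [(hd τ).deriv]
    have := interior_subset hτ
    exact (h τ this.1 this.2).1
  · refine (convex_Icc s t).image_sub_le_mul_sub_of_deriv_le hcont hdiff ?_ s hs t ht hst
    intro τ hτ
    rw [(hd τ).deriv]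
    have := interior_subset hτ
    exact (h τ this.1 this.2).2

end Pool.Agent.Y61.PV
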